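import Pool.Agent.Helper37.DG.Stmts

/-! Distances in dense subsets of integer grids: number of vectors of given length which are free
of the primes of `A`. -/

set_option autoImplicit false

namespace Pool.Agent.Helper37.DG

open Finset
open scoped Classical

theorem mul_nm (v : ℤ × ℤ) : ((nm v : ℕ) : ℤ) = v.1 ^ 2 + v.2 ^ 2 := by
  unfold nm
  exact Int.natAbs_of_nonneg (by positivity)

/-- division by the Gaussian integer `a + b i` of norm `P` -/
theorem mul_div' (j : ℕ → ℤ) (a b : ℤ) (P k : ℕ) (hP : a ^ 2 + b ^ 2 = (P : ℤ)) (hP0 : 0 < P)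
    (A : Finset ℕ) (hA : ∀ q ∈ A, (q : ℤ) ∣ j q ^ 2 + 1) (S : Finset (ℤ × ℤ))
    (hS : ∀ v ∈ S, nm v = P * k ∧ (P : ℤ) ∣ v.1 * a + v.2 * b ∧ (P : ℤ) ∣ v.2 * a - v.1 * b ∧
      Free j A v) :
    ∃ S' : Finset (ℤ × ℤ), S'.card = S.card ∧ ∀ w ∈ S', nm w = k ∧ Free j A w := by
  have hPz : (P : ℤ) ≠ 0 := by exact_mod_cast hP0.ne'
  have key : ∀ v ∈ S, ∃ w : ℤ × ℤ, v = (a * w.1 - b * w.2, b * w.1 + a * w.2) ∧
      w = ((v.1 * a + v.2 * b) / P, (v.2 * a - v.1 * b) / P) ∧ nm w = k ∧ Free j A w := by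
    intro v hv
    obtain ⟨h1, ⟨w1, h2⟩, ⟨w2, h3⟩, h4⟩ := hS v hv
    have e1 : v.1 = a * w1 - b * w2 := by
      have : (P : ℤ) * v.1 = P * (a * w1 - b * w2) := by
        calc (P : ℤ) * v.1 = a * (v.1 * a + v.2 * b) - b * (v.2 * a - v.1 * b) := by
              rw [← hP]; ring
          _ = P * (a * w1 - b * w2) := by rw [h2, h3]; ring
      exact mul_left_cancel₀ hPz this
    have e2 : v.2 = b * w1 + a * w2 := by
      have : (P : ℤ) * v.2 = P * (b * w1 + a * w2) := by
        calc (P : ℤ) * v.2 = b * (v.1 * a + v.2 * b) + a * (v.2 * a - v.1 * b) := by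
              rw [← hP]; ring
          _ = P * (b * w1 + a * w2) := by rw [h2, h3]; ring
      exact mul_left_cancel₀ hPz this
    refine ⟨(w1, w2), Prod.ext e1 e2, ?_, ?_, ?_⟩
    · rw [h2, h3, Int.mul_ediv_cancel_left _ hPz, Int.mul_ediv_cancel_left _ hPz]
    · have h5 := mul_nm v
      rw [h1] at h5
      have h6 : (P : ℤ) * ((nm (w1, w2) : ℕ) : ℤ) = (P : ℤ) * (k : ℤ) := by
        rw [mul_nm]
        calc (P : ℤ) * ((w1, w2).1 ^ 2 + (w1, w2).2 ^ 2) = v.1 ^ 2 + v.2 ^ 2 := by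
              rw [e1, e2, ← hP]; ring
          _ = (P : ℤ) * (k : ℤ) := by rw [← h5]; push_cast; ring
      exact_mod_cast mul_left_cancel₀ hPz h6
    · intro q hq hh
      refine h4 q hq ?_
      unfold hit at hh ⊢
      have : v.1 + j q * v.2 = (a + j q * b) * (w1 + j q * w2) - (j q ^ 2 + 1) * (b * w2) := by
        rw [e1, e2]; ring
      rw [this]
      exact dvd_sub (Dvd.dvd.mul_left hh _) (Dvd.dvd.mul_right (hA q hq) _)
  let f : ℤ × ℤ → ℤ × ℤ := fun v => ((v.1 * a + v.2 * b) / P, (v.2 * a - v.1 * b) / P)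
  refine ⟨S.image f, ?_, ?_⟩
  · refine Finset.card_image_of_injOn ?_
    intro v hv v' hv' he
    obtain ⟨w, h1, h2, _⟩ := key v hv
    obtain ⟨w', h1', h2', _⟩ := key v' hv'
    have : w = w' := h2.trans (he.trans h2'.symm)
    rw [h1, h1', this]
  · intro w hw
    obtain ⟨v, hv, rfl⟩ := Finset.mem_image.1 hw
    obtain ⟨w, _, h2, h3, h4⟩ := key v hv
    have : f v = w := h2.symm
    rw [this]
    exact ⟨h3, h4⟩

/-- the bound -/
noncomputable def mulW (F A : Finset ℕ) (m : ℕ) : ℕ :=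
  ∏ p ∈ F.filter (fun p => p % 4 = 1 ∧ p ∉ A), (m.factorization p + 1)

theorem mulW_ext (F A : Finset ℕ) (m : ℕ) (hF : m.primeFactors ⊆ F) :
    mulW m.primeFactors A m = mulW F A m := by
  unfold mulW
  refine Finset.prod_subset (Finset.filter_subset_filter _ hF) ?_
  intro p hp hp'
  rw [Finset.mem_filter] at hp hp'
  have h1 : p ∉ m.primeFactors := fun h => hp' ⟨h, hp.2⟩
  have h2 : m.factorization p = 0 := by
    rw [← Nat.support_factorization] at h1
    exact Finsupp.notMem_support_iff.1 h1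
  rw [h2, zero_add]

theorem mulW_mono (A : Finset ℕ) (k m : ℕ) (hkm : k ∣ m) (hm : m ≠ 0) :
    mulW k.primeFactors A k ≤ mulW m.primeFactors A m := by
  rw [mulW_ext m.primeFactors A k (Nat.primeFactors_mono hkm hm)]
  unfold mulW
  refine Finset.prod_le_prod' fun p _ => ?_
  have h1 : k.factorization ≤ m.factorization :=
    (Nat.factorization_le_iff_dvd (ne_zero_of_dvd_ne_zero hm hkm) hm).2 hkm
  exact Nat.succ_le_succ (h1 p)

theorem mulW_split (F A : Finset ℕ) (m p : ℕ) (hp : p ∈ F) (hp4 : p % 4 = 1) (hpA : p ∉ A) :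
    mulW F A m = (m.factorization p + 1) * mulW F (insert p A) m := by
  unfold mulW
  have e : F.filter (fun q => q % 4 = 1 ∧ q ∉ A) =
      insert p (F.filter (fun q => q % 4 = 1 ∧ q ∉ insert p A)) := by
    ext q
    rw [Finset.mem_filter, Finset.mem_insert, Finset.mem_filter, Finset.mem_insert]
    constructor
    · rintro ⟨h1, h2, h3⟩
      by_cases hq : q = p
      · exact Or.inl hq
      · exact Or.inr ⟨h1, h2, fun h => h.elim hq h3⟩
    · rintro (h | ⟨h1, h2, h3⟩)
      · rw [h]; exact ⟨hp, hp4, hpA⟩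
      · exact ⟨h1, h2, fun h => h3 (Or.inr h)⟩
  rw [e, Finset.prod_insert]
  rw [Finset.mem_filter]
  rintro ⟨_, _, h⟩
  exact h (Finset.mem_insert_self _ _)

/-- one prime `1 mod 4` outside `A` -/
theorem mulW_add (A : Finset ℕ) (k p : ℕ) (hp : p.Prime) (hp4 : p % 4 = 1) (hpA : p ∉ A)
    (hk : k ≠ 0) :
    mulW k.primeFactors A k + mulW k.primeFactors (insert p A) k ≤
      mulW (p * k).primeFactors A (p * k) := by
  have hm : p * k ≠ 0 := mul_ne_zero hp.ne_zero hk
  have hsub : k.primeFactors ⊆ (p * k).primeFactors :=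
    Nat.primeFactors_mono (Dvd.intro_left p rfl) hm
  have hpF : p ∈ (p * k).primeFactors :=
    Nat.mem_primeFactors.2 ⟨hp, Dvd.intro k rfl, hm⟩
  rw [mulW_ext _ A k hsub, mulW_ext _ (insert p A) k hsub, mulW_split _ A k p hpF hp4 hpA,
    mulW_split _ A (p * k) p hpF hp4 hpA]
  have h1 : (p * k).factorization p = k.factorization p + 1 := by
    rw [Nat.factorization_mul hp.ne_zero hk]
    simp [hp.factorization, add_comm]
  have h2 : mulW (p * k).primeFactors (insert p A) k ≤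
      mulW (p * k).primeFactors (insert p A) (p * k) := by
    rw [← mulW_ext _ (insert p A) k hsub]
    exact mulW_mono _ _ _ (Dvd.intro_left p rfl) hm
  rw [h1]
  calc (k.factorization p + 1) * mulW (p * k).primeFactors (insert p A) k +
        mulW (p * k).primeFactors (insert p A) k
      = (k.factorization p + 1 + 1) * mulW (p * k).primeFactors (insert p A) k := by ring
    _ ≤ _ := Nat.mul_le_mul_left _ h2

/-- a prime `3 mod 4` dividing a sum of two squares -/
theorem mul_three (p : ℕ) (hp : p.Prime) (hp4 : p % 4 = 3) (x y : ℤ)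
    (h : (p : ℤ) ∣ x ^ 2 + y ^ 2) : (p : ℤ) ∣ x ∧ (p : ℤ) ∣ y := by
  have : Fact p.Prime := ⟨hp⟩
  have h1 : ((x ^ 2 + y ^ 2 : ℤ) : ZMod p) = 0 := (ZMod.intCast_zmod_eq_zero_iff_dvd _ p).2 h
  push_cast at h1
  have hy : ((y : ℤ) : ZMod p) = 0 := by
    by_contra hc
    exact ZMod.mod_four_ne_three_of_sq_eq_neg_sq' hc (eq_neg_of_add_eq_zero_left h1) hp4
  have hx : ((x : ℤ) : ZMod p) = 0 := by
    rw [hy] at h1
    simpa using h1
  exact ⟨(ZMod.intCast_zmod_eq_zero_iff_dvd _ p).1 hx, (ZMod.intCast_zmod_eq_zero_iff_dvd _ p).1 hy⟩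

/-- a Gaussian prime above `p` in the ideal of `j` -/
theorem mul_one' (p : ℕ) (hp : p.Prime) (hp4 : p % 4 = 1) (j : ℤ) (hj : (p : ℤ) ∣ j ^ 2 + 1) :
    ∃ a b : ℤ, a ^ 2 + b ^ 2 = (p : ℤ) ∧ (p : ℤ) ∣ a + j * b := by
  have : Fact p.Prime := ⟨hp⟩
  obtain ⟨a, b, hab⟩ := Nat.Prime.sq_add_sq (p := p) (by omega)
  have hab' : (a : ℤ) ^ 2 + (b : ℤ) ^ 2 = (p : ℤ) := by exact_mod_cast hab
  have h1 : (p : ℤ) ∣ ((a : ℤ) + j * b) * ((a : ℤ) - j * b) := by
    have : ((a : ℤ) + j * b) * ((a : ℤ) - j * b) = (p : ℤ) - (j ^ 2 + 1) * (b : ℤ) ^ 2 := by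
      rw [← hab']; ring
    rw [this]
    exact dvd_sub (dvd_refl _) (Dvd.dvd.mul_right hj _)
  rcases (Nat.prime_iff_prime_int.1 hp).dvd_or_dvd h1 with h | h
  · exact ⟨a, b, hab', h⟩
  · refine ⟨a, -b, by rw [← hab']; ring, ?_⟩
    have : (a : ℤ) + j * -(b : ℤ) = (a : ℤ) - j * b := by ring
    rw [this]
    exact h

theorem mul_unit (S : Finset (ℤ × ℤ)) (hS : ∀ v ∈ S, nm v = 1) : S.card ≤ 4 := by
  have h : S ⊆ {((1 : ℤ), (0 : ℤ)), (-1, 0), (0, 1), (0, -1)} := by
    intro v hv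
    have h1 := mul_nm v
    rw [hS v hv] at h1
    obtain ⟨x, y⟩ := v
    simp only at h1
    have hx : x ^ 2 ≤ 1 := by push_cast at h1; nlinarith [sq_nonneg y]
    have hy : y ^ 2 ≤ 1 := by push_cast at h1; nlinarith [sq_nonneg x]
    have hx1 : x ≤ 1 := by nlinarith
    have hx2 : -1 ≤ x := by nlinarith
    have hy1 : y ≤ 1 := by nlinarith
    have hy2 : -1 ≤ y := by nlinarith
    interval_cases x <;> interval_cases y <;> simp_all
  refine le_trans (Finset.card_le_card h) ?_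
  refine le_trans (Finset.card_insert_le _ _) ?_
  refine Nat.succ_le_succ (le_trans (Finset.card_insert_le _ _) ?_)
  refine Nat.succ_le_succ (le_trans (Finset.card_insert_le _ _) ?_)
  simp

theorem mul_main (j : ℕ → ℤ) (hj : Root j) (m : ℕ) : ∀ (A : Finset ℕ),
    (∀ p ∈ A, p.Prime ∧ p % 4 = 1) → 1 ≤ m → ∀ S : Finset (ℤ × ℤ),
    (∀ v ∈ S, nm v = m ∧ Free j A v) → S.card ≤ 4 * mulW m.primeFactors A m := by
  induction m using Nat.strong_induction_on with
  | _ m ih =>
  intro A hA hm S hS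
  have hAj : ∀ q ∈ A, (q : ℤ) ∣ j q ^ 2 + 1 := fun q hq => hj q (hA q hq).1 (hA q hq).2
  by_cases hm1 : m = 1
  · have h1 := mul_unit S (fun v hv => by rw [(hS v hv).1, hm1])
    have h2 : mulW m.primeFactors A m = 1 := by
      rw [hm1]
      unfold mulW
      simp
    rw [h2]
    exact h1
  have hp : m.minFac.Prime := Nat.minFac_prime hm1
  obtain ⟨k, hk⟩ := Nat.minFac_dvd m
  generalize m.minFac = p at hp hk
  have hk0 : k ≠ 0 := by
    rintro rfl
    rw [mul_zero] at hk
    omega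
  have hkm : k < m := by
    rw [hk]
    calc k = 1 * k := (one_mul k).symm
      _ < p * k := Nat.mul_lt_mul_of_pos_right hp.one_lt (Nat.pos_of_ne_zero hk0)
  have hkd : k ∣ m := ⟨p, by rw [hk, mul_comm]⟩
  have hm0 : m ≠ 0 := by omega
  have hp4 : p = 2 ∨ p % 4 = 1 ∨ p % 4 = 3 := by
    rcases hp.eq_two_or_odd with h | h
    · exact Or.inl h
    · omega
  rcases hp4 with h2 | h1 | h3
  · -- the prime 2
    obtain ⟨S', hc, hS'⟩ := mul_div' j 1 1 2 k (by norm_num) (by norm_num) A hAj S (by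
      intro v hv
      obtain ⟨e1, e2⟩ := hS v hv
      have e3 := mul_nm v
      have e4 : v.1 ^ 2 + v.2 ^ 2 = 2 * (k : ℤ) := by
        rw [← e3, e1, hk, h2]; push_cast; ring
      have e5 : (2 : ℤ) ∣ v.1 + v.2 := by
        have : (v.1 + v.2) ^ 2 = 2 * (k + v.1 * v.2) := by linarith [e4, sq_nonneg v.1,
          (by ring : (v.1 + v.2) ^ 2 = v.1 ^ 2 + v.2 ^ 2 + 2 * (v.1 * v.2))]
        exact Int.prime_two.dvd_of_dvd_pow (Dvd.intro _ this.symm)
      refine ⟨by rw [e1, hk, h2], ?_, ?_, e2⟩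
      · rw [mul_one, mul_one]
        exact_mod_cast e5
      · rw [mul_one, mul_one]
        have : v.2 - v.1 = (v.1 + v.2) - 2 * v.1 := by ring
        rw [this]
        exact_mod_cast dvd_sub e5 (Dvd.intro _ rfl))
    rw [← hc]
    exact le_trans (ih k hkm A hA (Nat.pos_of_ne_zero hk0) S' hS')
      (Nat.mul_le_mul_left 4 (mulW_mono A k m hkd hm0))
  · -- a prime 1 mod 4
    obtain ⟨a, b, hab, haj⟩ := mul_one' p hp h1 (j p) (hj p hp h1)
    have hjp := hj p hp h1
    -- the vectors hit by p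
    have hhit : ∀ T : Finset (ℤ × ℤ), (∀ v ∈ T, nm v = m ∧ Free j A v ∧ hit j p v) →
        T.card ≤ 4 * mulW k.primeFactors A k := by
      intro T hT
      obtain ⟨S', hc, hS'⟩ := mul_div' j a b p k hab hp.pos A hAj T (by
        intro v hv
        obtain ⟨e1, e2, e3⟩ := hT v hv
        refine ⟨by rw [e1, hk], ?_, ?_, e2⟩
        · have : v.1 * a + v.2 * b = a * (v.1 + j p * v.2) - j p * v.2 * (a + j p * b) +
              (j p ^ 2 + 1) * (v.2 * b) := by ring
          rw [this]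
          exact dvd_add (dvd_sub (Dvd.dvd.mul_left e3 _) (Dvd.dvd.mul_left haj _))
            (Dvd.dvd.mul_right hjp _)
        · have : v.2 * a - v.1 * b = v.2 * (a + j p * b) - b * (v.1 + j p * v.2) := by ring
          rw [this]
          exact dvd_sub (Dvd.dvd.mul_left haj _) (Dvd.dvd.mul_left e3 _))
      rw [← hc]
      exact ih k hkm A hA (Nat.pos_of_ne_zero hk0) S' hS'
    -- the vectors not hit by p
    have hnot : ∀ T : Finset (ℤ × ℤ), (∀ v ∈ T, nm v = m ∧ Free j (insert p A) v) →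
        T.card ≤ 4 * mulW k.primeFactors (insert p A) k := by
      intro T hT
      have hA' : ∀ q ∈ insert p A, q.Prime ∧ q % 4 = 1 := by
        intro q hq
        rcases Finset.mem_insert.1 hq with h | h
        · rw [h]; exact ⟨hp, h1⟩
        · exact hA q h
      obtain ⟨S', hc, hS'⟩ := mul_div' j a (-b) p k (by rw [← hab]; ring) hp.pos (insert p A)
        (fun q hq => hj q (hA' q hq).1 (hA' q hq).2) T (by
        intro v hv
        obtain ⟨e1, e2⟩ := hT v hv
        have e3 : ¬ (p : ℤ) ∣ v.1 + j p * v.2 := e2 p (Finset.mem_insert_self _ _)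
        have e4 : (p : ℤ) ∣ (v.1 + j p * v.2) * (v.1 - j p * v.2) := by
          have : (v.1 + j p * v.2) * (v.1 - j p * v.2) =
              (p : ℤ) * k - (j p ^ 2 + 1) * v.2 ^ 2 := by
            have h5 := mul_nm v
            rw [e1, hk] at h5
            push_cast at h5
            rw [h5]; ring
          rw [this]
          exact dvd_sub (Dvd.intro _ rfl) (Dvd.dvd.mul_right hjp _)
        have e5 : (p : ℤ) ∣ v.1 - j p * v.2 :=
          ((Nat.prime_iff_prime_int.1 hp).dvd_or_dvd e4).resolve_left e3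
        refine ⟨by rw [e1, hk], ?_, ?_, e2⟩
        · have : v.1 * a + v.2 * -b = a * (v.1 - j p * v.2) + j p * v.2 * (a + j p * b) -
              (j p ^ 2 + 1) * (v.2 * b) := by ring
          rw [this]
          exact dvd_sub (dvd_add (Dvd.dvd.mul_left e5 _) (Dvd.dvd.mul_left haj _))
            (Dvd.dvd.mul_right hjp _)
        · have : v.2 * a - v.1 * -b = v.2 * (a + j p * b) + b * (v.1 - j p * v.2) := by ring
          rw [this]
          exact dvd_add (Dvd.dvd.mul_left haj _) (Dvd.dvd.mul_left e5 _))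
      rw [← hc]
      exact ih k hkm (insert p A) hA' (Nat.pos_of_ne_zero hk0) S' hS'
    by_cases hpA : p ∈ A
    · have h4 := hnot S (fun v hv => by rw [Finset.insert_eq_of_mem hpA]; exact hS v hv)
      rw [Finset.insert_eq_of_mem hpA] at h4
      exact le_trans h4 (Nat.mul_le_mul_left 4 (mulW_mono A k m hkd hm0))
    · have h5 := hhit (S.filter (fun v => hit j p v)) (fun v hv => by
        rw [Finset.mem_filter] at hv
        exact ⟨(hS v hv.1).1, (hS v hv.1).2, hv.2⟩)
      have h6 := hnot (S.filter (fun v => ¬ hit j p v)) (fun v hv => by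
        rw [Finset.mem_filter] at hv
        refine ⟨(hS v hv.1).1, ?_⟩
        intro q hq
        rcases Finset.mem_insert.1 hq with h | h
        · rw [h]; exact hv.2
        · exact (hS v hv.1).2 q h)
      have h7 : (S.filter (fun v => hit j p v)).card + (S.filter (fun v => ¬ hit j p v)).card =
          S.card := Finset.card_filter_add_card_filter_not _
      have h8 := mulW_add A k p hp h1 hpA hk0
      rw [hk]
      omega
  · -- a prime 3 mod 4
    by_cases hSe : S = ∅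
    · rw [hSe]; simp
    obtain ⟨v0, hv0⟩ := Finset.nonempty_iff_ne_empty.2 hSe
    have hdiv : ∀ v ∈ S, (p : ℤ) ∣ v.1 ∧ (p : ℤ) ∣ v.2 := by
      intro v hv
      refine mul_three p hp h3 _ _ ?_
      have e3 := mul_nm v
      rw [(hS v hv).1, hk] at e3
      rw [← e3]
      push_cast
      exact Dvd.intro _ rfl
    have hpk : ∃ l, k = p * l := by
      obtain ⟨⟨x, hx⟩, y, hy⟩ := hdiv v0 hv0
      have e3 := mul_nm v0
      rw [(hS v0 hv0).1, hk, hx, hy] at e3
      push_cast at e3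
      have e4 : (p : ℤ) * k = p * (p * (x ^ 2 + y ^ 2)) := by rw [e3]; ring
      have e5 : (k : ℤ) = p * (x ^ 2 + y ^ 2) :=
        mul_left_cancel₀ (by exact_mod_cast hp.ne_zero) e4
      have e6 : (p : ℤ) ∣ (k : ℤ) := ⟨_, e5⟩
      exact Int.natCast_dvd_natCast.1 e6
    obtain ⟨l, hl⟩ := hpk
    have hl0 : l ≠ 0 := by
      rintro rfl
      rw [mul_zero] at hl
      exact hk0 hl
    have hld : l ∣ m := ⟨p * p, by rw [hk, hl]; ring⟩
    have hlm : l < m := by
      refine lt_of_le_of_lt (Nat.le_of_dvd (Nat.pos_of_ne_zero hk0) ⟨p, by rw [hl, mul_comm]⟩) hkm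
    obtain ⟨S', hc, hS'⟩ := mul_div' j p 0 (p * p) l (by push_cast; ring)
      (Nat.mul_pos hp.pos hp.pos) A hAj S (by
      intro v hv
      obtain ⟨⟨x, hx⟩, y, hy⟩ := hdiv v hv
      refine ⟨by rw [(hS v hv).1, hk, hl]; ring, ?_, ?_, (hS v hv).2⟩
      · rw [hx]
        exact ⟨x, by push_cast; ring⟩
      · rw [hy]
        exact ⟨y, by push_cast; ring⟩)
    rw [← hc]
    exact le_trans (ih l hlm A hA (Nat.pos_of_ne_zero hl0) S' hS')
      (Nat.mul_le_mul_left 4 (mulW_mono A l m hld hm0))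

theorem st_MUL : ST_MUL := by
  intro j A m hj hA hm S hS
  exact mul_main j hj m A hA hm S hS

end Pool.Agent.Helper37.DG
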